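import Pool.Agent.Helper41.LF.GoalsA

/-! # Packet LF-MRK: marked points have no short vectors -/

namespace Pool.Agent.Helper41.LF

open Classical in
/-- Membership in `spans V`. -/
theorem mem_spans_iff {d : ℕ} (V : Finset (Fin (d + 1) → ℤ))
    (W : Submodule ℚ (Fin (d + 1) → ℚ)) :
    W ∈ spans V ↔ W ≠ ⊥ ∧ ∃ A : Finset (Fin (d + 1) → ℤ), A ⊆ V ∧
      W = Submodule.span ℚ (toQ '' (A : Set (Fin (d + 1) → ℤ))) := by
  unfold spans
  simp only [Finset.mem_erase, Finset.mem_image, Finset.bind_def, Finset.pure_def,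
    Finset.mem_sup, Finset.mem_singleton, Finset.mem_powerset]
  constructor
  · rintro ⟨h1, S, ⟨A, hA, hS⟩, h2⟩
    refine ⟨h1, A, hA, ?_⟩
    rw [← h2, hS]
  · rintro ⟨h1, A, hA, h2⟩
    exact ⟨h1, _, ⟨A, hA, rfl⟩, h2.symm⟩

open Classical in
theorem thm_MRK : S_MRK := by
  intro d a K Ψ hΨ V ε G x hε hε1 hG hM v hv hv0 hsm
  obtain ⟨F, hFT, hchain, hF1, hF2⟩ := hM
  have hq0 : toQ v ≠ 0 := by
    intro h
    apply hv0
    funext i
    have := congrFun h i
    simpa [toQ] using this
  -- the finite chain with `⊥`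
  have hCchain : ∀ s ∈ insert ⊥ F, ∀ t ∈ insert ⊥ F, s ≤ t ∨ t ≤ s := by
    intro s hs t ht
    rw [Finset.mem_insert] at hs ht
    rcases hs with rfl | hs
    · exact Or.inl bot_le
    · rcases ht with rfl | ht
      · exact Or.inr bot_le
      · by_cases hst : s = t
        · exact Or.inl hst.le
        · exact hchain hs ht hst
  have hne : ((insert ⊥ F).filter fun W => toQ v ∉ W).Nonempty := by
    refine ⟨⊥, ?_⟩
    rw [Finset.mem_filter]
    exact ⟨Finset.mem_insert_self _ _, fun h => hq0 ((Submodule.mem_bot ℚ).1 h)⟩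
  obtain ⟨W, hWmax⟩ := Finset.exists_maximal hne
  have hW := hWmax.prop
  rw [Finset.mem_filter] at hW
  obtain ⟨hWC, hWv⟩ := hW
  set W' := W ⊔ Submodule.span ℚ {toQ v} with hW'
  have hvW' : toQ v ∈ W' := by
    rw [hW']
    exact (le_sup_right : Submodule.span ℚ {toQ v} ≤ _) (Submodule.mem_span_singleton_self _)
  have hcomp : ∀ t ∈ F, W' ≤ t ∨ t ≤ W' := by
    intro t ht
    by_cases hvt : toQ v ∈ t
    · rcases hCchain W hWC t (Finset.mem_insert_of_mem ht) with h | h
      · left
        rw [hW']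
        refine sup_le h ?_
        rw [Submodule.span_le]
        intro y hy
        rw [Set.mem_singleton_iff] at hy
        rw [hy]
        exact hvt
      · exact absurd (h hvt) hWv
    · right
      have htS : t ∈ (insert ⊥ F).filter fun W => toQ v ∉ W := by
        rw [Finset.mem_filter]
        exact ⟨Finset.mem_insert_of_mem ht, hvt⟩
      have htW : t ≤ W := by
        rcases hCchain W hWC t (Finset.mem_insert_of_mem ht) with h | h
        · exact hWmax.le_of_ge htS h
        · exact h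
      exact htW.trans le_sup_left
  -- `W'` belongs to `spans V`
  have hWspan : ∃ A : Finset (Fin (d + 1) → ℤ), A ⊆ V ∧
      W = Submodule.span ℚ (toQ '' (A : Set (Fin (d + 1) → ℤ))) := by
    rw [Finset.mem_insert] at hWC
    rcases hWC with h | h
    · refine ⟨∅, Finset.empty_subset _, ?_⟩
      rw [h]
      simp
    · exact ((mem_spans_iff V W).1 (hFT h)).2
  have hW'T : W' ∈ spans V := by
    obtain ⟨A, hA, hA2⟩ := hWspan
    rw [mem_spans_iff]
    refine ⟨?_, insert v A, Finset.insert_subset hv hA, ?_⟩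
    · intro h
      rw [h] at hvW'
      exact hq0 ((Submodule.mem_bot ℚ).1 hvW')
    · rw [hW', hA2, Finset.coe_insert, Set.image_insert_eq, Submodule.span_insert, sup_comm]
  have hlow : ε ≤ Ψ W' x := by
    by_cases hWF : W' ∈ F
    · exact (hF1 W' hWF).1
    · exact hε1.trans (hF2 W' hW'T hWF hcomp)
  have hup : Ψ W x ≤ G := by
    rw [Finset.mem_insert] at hWC
    rcases hWC with h | h
    · rw [h, hΨ.bot]; exact hG
    · exact (hF1 W h).2
  -- the maximum
  set M := (Finset.univ : Finset (Fin (d + 1))).sup' Finset.univ_nonempty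
    (fun i => |hx d a K x v i|) with hMdef
  have hM1 : ∀ i, |hx d a K x v i| ≤ M := fun i =>
    Finset.le_sup' (fun i => |hx d a K x v i|) (Finset.mem_univ i)
  have hM0 : 0 ≤ M := (abs_nonneg _).trans (hM1 0)
  have hMlt : M < ε / ((d + 1) ^ 2 * G) := by
    rw [hMdef, Finset.sup'_lt_iff]
    intro i _
    exact hsm i
  have hstep := hΨ.step W v hWv x M hM1
  rw [← hW'] at hstep
  have hG0 : 0 < G := by linarith
  have hd : (0 : ℝ) < ((d : ℝ) + 1) ^ 2 * G := by positivity
  rw [lt_div_iff₀ hd] at hMlt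
  have h1 : ((d : ℝ) + 1) ^ 2 * M * Ψ W x ≤ ((d : ℝ) + 1) ^ 2 * M * G :=
    mul_le_mul_of_nonneg_left hup (by positivity)
  nlinarith

end Pool.Agent.Helper41.LF
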